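import Pool.Agent.Q183.PS.Main
import Pool.Agent.Q80.TC.Main

set_option autoImplicit false

open Polynomial Pool.Agent.W77.IM Pool.Agent.W432.PC Pool.Agent.Q80.TC

/-!
# Grothendieck's conjecture for systems on the thrice punctured line which correspond to systems of
# rank two with four, or of rank three with three essential singular points, in any position

Let `(★)` be a system of any rank on the thrice punctured line, and let `C` be a curve with two
nonconstant functions `t` and `x`. We consider the case where the Tannakian category generated by the
pullback `t^* (★)` to `C` contains the pullback `x^* ∇₀` of a system `∇₀` with any number of singular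
points: `x^* ∇₀` is a subquotient of a construction of linear algebra (sums, tensor products, duals)
applied to `t^* (★)`. For instance `(★)` may have as a subquotient the direct image of `x^* ∇₀`,
for a function `t` on `C` ramified only over `0`, `1`, `∞` (Belyi).
-/

namespace Pool.Agent.Results.MP_5e5ff1_ag.CorrespondencesFourPoints

universe u v

/-- Let `(★)` be the system `f' = (b / t + c / (t - 1)) f` of any rank `s` over a domain `R` of finite
type over `ℤ`, of characteristic zero. Let `∇₀ = d/dx - ∑ j, A j / (x - α j)` be a system of rank `r`
with `n` finite singular points over `R`, with `α i - α j` invertible for `i ≠ j`.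
Let its exponents be `e (some j) l / N` at `α j` and `e none l / N` at infinity. Let `P` list `m` of the
`n + 1` points, where `r = 2`, `m = 4` or `r = 3`, `m = 3`, and let the exponents at all other points be
integers. Assume that the differences of the `e (P i) l`, `i` fixed, are prime to `N` or divisible by
`N`, and that the sums `∑ i, e (P i) (κ i)` of exponents, one at each of the `m` points, are prime to
`N`. The positions `α j` and the accessory parameters are arbitrary.

Let `C` be a curve over `Frac R`, of any genus, with the function field `F` (algebraic over `R(x)`), let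
`δ` be the derivation `d/dx` of `F` and let `t ∈ F` be a nonconstant function. Assume that `x^* ∇₀` is
a subquotient of a bundle with connection on `C` which is built from `t^* (★)` and the trivial one by
tensor products, duals and direct sums (`Corr`, `Built`).

Then there are a residue class modulo `N`, prime to `N`, and a nonzero `g ∈ R` such that for all large
primes `p` in the class the `p`-curvature of `(★)` is nonzero at every closed point of
`Spec R[1/g]` of residue characteristic `p`. In particular the `p`-curvatures of `(★)` do not vanish on
a dense open subset of `Spec R`. -/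
theorem result {R : Type u} [CommRing R] [IsDomain R] [CharZero R] [Algebra.FiniteType ℤ R]
    -- the system `(★)` on the thrice punctured line
    {s : ℕ} (b c : Matrix (Fin s) (Fin s) R)
    -- the system `∇₀`
    {n m r : ℕ} (hmr : (m - 2) * (r - 1) = 2)
    (α : Fin n → R) (hα : ∀ i j, i ≠ j → IsUnit (α i - α j))
    (A : Fin n → Matrix (Fin r) (Fin r) R) (N : ℕ) (hN : 1 < N)
    (e : Option (Fin n) → Fin r → ℤ)
    (he : ∀ j, HasExponents (A j) (fun l => (e (some j) l : ℚ) / N))
    (he' : HasExponents (∑ j, A j) (fun l => -(e none l : ℚ) / N))
    (P : Fin m ↪ Option (Fin n)) (hint : ∀ x, x ∉ Set.range P → ∀ l, (N : ℤ) ∣ e x l)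
    (h1 : ∀ i l l', IsCoprime (e (P i) l - e (P i) l') (N : ℤ) ∨ (N : ℤ) ∣ e (P i) l - e (P i) l')
    (h2 : ∀ κ : Fin m → Fin r, IsCoprime (∑ i, e (P i) (κ i)) (N : ℤ))
    -- the curve, the functions `x`, `t` and the subquotient
    {F : Type v} [Field F] [Algebra R F] (δ : Derivation R F F) (x t : F)
    (hC : Corr α A ![0, 1] ![b, c] δ x t) :
    (∃ a : ℤ, IsCoprime a (N : ℤ) ∧ ∃ g : R, g ≠ 0 ∧ ∃ P₀ : ℕ, ∀ p : ℕ, p.Prime → P₀ < p →
      (N : ℤ) ∣ a * p + 1 → ∀ (𝔪 : Ideal R) [𝔪.IsMaximal], (p : R) ∈ 𝔪 → g ∉ 𝔪 →
        ¬ PCurvZeroAt ![0, 1] ![b, c] 𝔪) ∧
    ¬ CondII (![0, 1] : Fin 2 → R) ![b, c] := by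
  have hm : 2 ≤ m := by
    by_contra h
    have : m - 2 = 0 := by omega
    rw [this, zero_mul] at hmr
    omega
  exact tannaka_of_bad hC N (by omega)
    (Pool.Agent.Q183.PS.extraPoints hmr hm α hα A N hN e he he' P hint h1 h2)

end Pool.Agent.Results.MP_5e5ff1_ag.CorrespondencesFourPoints
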