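import Pool.Agent.TH141.PC.General
import Pool.Agent.Q80.TC.Main

set_option autoImplicit false

open Polynomial Pool.Agent.W77.IM Pool.Agent.W432.PC Pool.Agent.Q80.TC

/-!
# Grothendieck's conjecture for systems on the thrice punctured line which correspond to systems of
# any rank with any number of points and many exponents modulo `ℤ`

For the description of correspondences see the result `CorrespondencesFourPoints`: the Tannakian
category generated by the pullback of `(★)` by a function `t` on a curve contains the pullback of `∇₀`
by another function `x`.
-/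

namespace Pool.Agent.Results.MP_5e5ff1_ag.CorrespondencesManyExponents

universe u v

/-- Let `(★)` be the system `f' = (b / t + c / (t - 1)) f` of any rank `s` over a domain `R` of finite
type over `ℤ`, of characteristic zero. Let `∇₀ = d/dx - ∑ j, A j / (x - α j)` be a system of rank `r`
with `n` finite singular points over `R`, with `α i - α j` invertible for `i ≠ j`.
Let its exponents be `e (some j) l / N` at `α j` and `e none l / N` at infinity. Assume that the
difference of two of the integers `e y l` at the same point is prime to `N` or divisible by `N`, and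
that no sum of exponents, one at each point, is an integer. Let `k y` be the number of exponents at `y`
modulo `ℤ`, and assume that the sum of the `k y`, over the points with `k y ≥ 2`, is larger than `N`.
The positions `α j` and the accessory parameters (in any number) are arbitrary.

Let `C` be a curve over `Frac R`, of any genus, with the function field `F` (algebraic over `R(x)`), let
`δ` be the derivation `d/dx` of `F` and let `t ∈ F` be a nonconstant function. Assume that `x^* ∇₀` is
a subquotient of a bundle with connection on `C` which is built from `t^* (★)` and the trivial one by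
tensor products, duals and direct sums (`Corr`, `Built`).

Then there are a residue class modulo `N`, prime to `N`, and a nonzero `g ∈ R` such that for all large
primes `p` in the class the `p`-curvature of `(★)` is nonzero at every closed point of
`Spec R[1/g]` of residue characteristic `p`. In particular the `p`-curvatures of `(★)` do not vanish on
a dense open subset of `Spec R`. -/
theorem result {R : Type u} [CommRing R] [IsDomain R] [CharZero R] [Algebra.FiniteType ℤ R]
    -- the system `(★)` on the thrice punctured line
    {s : ℕ} (b c : Matrix (Fin s) (Fin s) R)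
    -- the system `∇₀`
    {n r : ℕ} (α : Fin n → R) (hα : ∀ i j, i ≠ j → IsUnit (α i - α j))
    (A : Fin n → Matrix (Fin r) (Fin r) R) (N : ℕ) (hN : 1 < N)
    (e : Option (Fin n) → Fin r → ℤ)
    (he : ∀ j, HasExponents (A j) (fun l => (e (some j) l : ℚ) / N))
    (he' : HasExponents (∑ j, A j) (fun l => -(e none l : ℚ) / N))
    (h1 : ∀ y l l', IsCoprime (e y l - e y l') (N : ℤ) ∨ (N : ℤ) ∣ e y l - e y l')
    (h2 : ∀ κ : Option (Fin n) → Fin r, ¬ (N : ℤ) ∣ ∑ y, e y (κ y))
    (k : Option (Fin n) → ℕ)
    (hk : ∀ y, (Finset.univ.image fun l => (e y l : ZMod N)).card = k y)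
    (h3 : N < ∑ y ∈ Finset.univ.filter (fun y => 2 ≤ k y), k y)
    -- the curve, the functions `x`, `t` and the subquotient
    {F : Type v} [Field F] [Algebra R F] (δ : Derivation R F F) (x t : F)
    (hC : Corr α A ![0, 1] ![b, c] δ x t) :
    (∃ a : ℤ, IsCoprime a (N : ℤ) ∧ ∃ g : R, g ≠ 0 ∧ ∃ P₀ : ℕ, ∀ p : ℕ, p.Prime → P₀ < p →
      (N : ℤ) ∣ a * p + 1 → ∀ (𝔪 : Ideal R) [𝔪.IsMaximal], (p : R) ∈ 𝔪 → g ∉ 𝔪 →
        ¬ PCurvZeroAt ![0, 1] ![b, c] 𝔪) ∧
    ¬ CondII (![0, 1] : Fin 2 → R) ![b, c] :=
  tannaka_of_bad hC N (by omega)
    (Pool.Agent.TH141.PC.many_exponents α hα A N hN e he he' h1 h2 k hk h3)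

end Pool.Agent.Results.MP_5e5ff1_ag.CorrespondencesManyExponents
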