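import Pool.Agent.Q80.TC.Dens

set_option autoImplicit false

open Polynomial Pool.Agent.W77.IM Pool.Agent.W432.PC Pool.Agent.W432.TC Pool.Agent.W432.HK
open Pool.Agent.Y227.SS Pool.Agent.TH571.GP Pool.Agent.Y227.TP Pool.Agent.Q80.TC

/-!
# A uniform density theorem for the systems on the thrice punctured line which correspond to systems
# with `n` points of rank `r`

For the description of correspondences see the result `CorrespondencesFourPoints`: the Tannakian
category generated by the pullback of `(★)` by a function `t` on a curve contains the pullback of `∇₀`
by another function `x`. The constant `ε` and the exceptional set depend only on the rank and on the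
number of the singular points of `∇₀`. They do not depend on the rank of `(★)`, on the curve, on the
functions, on the construction, on the number field or on the exponents.
-/

namespace Pool.Agent.Results.MP_5e5ff1_ag.CorrespondencesSpectralDensity

universe u v

/-- For all `n`, `r` there are `ε > 0` and a finite set `𝒟` of torsion cosets in the torus of exponents,
all of whose points are the weights of semistable parabolic bundles of parabolic degree zero on the
projective line over `ℂ`, and which have many relations on every spectral type (`Adapted`), with the
following property. Let `(★)` be the system `f' = (b / t + c / (t - 1)) f`, of any rank `s`, and let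
`∇₀ = d/dx - ∑ j, A j / (x - α j)` be a system of rank `r` with `n` finite poles,
both over a domain `R` of characteristic zero which is finitely generated and algebraic over `ℤ` (an
order in a number field with finitely many elements inverted), with `α i - α j` invertible for `i ≠ j`.
Let `C` be a curve over `Frac R`, of any genus, with the function field `F` (algebraic over `R(x)`), let
`δ` be the derivation `d/dx` of `F` and let `t ∈ F` be a nonconstant function. Assume that `x^* ∇₀` is
a subquotient of a bundle with connection on `C` which is built from `t^* (★)` and the trivial one by
tensor products, duals and direct sums (`Corr`, `Built`).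

(1) If the exponents of `∇₀` are rational, with a common denominator `N`, then either there are at least
`ε φ(N)` residue classes modulo `N` such that the `p`-curvature of `(★)` is nonzero at every closed
point of residue characteristic `p`, for all large primes `p` in these classes; or the exponents are on
one of the cosets, all their multiples by integers `a` prime to `N` are the weights of semistable
parabolic bundles of parabolic degree zero and, if `∇₀` is irreducible (over all extensions), of
stable ones.

(2) If for arbitrarily large `X` there are fewer than `ε π(X)` primes `p ≤ X` such that the
`p`-curvature of `(★)` is nonzero at some closed point of residue characteristic `p` (for example if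
almost all of its `p`-curvatures are zero), then all residues `A j` and `∑ j, A j` of `∇₀` are
diagonalizable with rational eigenvalues and the second alternative of (1) holds. -/
theorem result (n r : ℕ) :
    ∃ (ε : ℝ) (𝒟 : Finset (AddSubgroup (ExponentIndex n r → ℤ) × (ExponentIndex n r → ℚ))),
      0 < ε ∧ (∀ C ∈ 𝒟, Adapted C) ∧
      ∀ (R : Type u) [CommRing R] [IsDomain R] [CharZero R] [Algebra.FiniteType ℤ R]
        [Algebra.IsAlgebraic ℤ R] (s : ℕ) (b c : Matrix (Fin s) (Fin s) R)
        (α : Fin n → R) (A : Fin n → Matrix (Fin r) (Fin r) R),
        (∀ i j, i ≠ j → IsUnit (α i - α j)) →
        -- the curve, the functions `x`, `t` and the subquotient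
        ∀ (F : Type v) [Field F] [Algebra R F] (δ : Derivation R F F) (x t : F),
          Corr α A ![0, 1] ![b, c] δ x t →
        (∀ lam phi N, (∀ j, HasExponents (A j) (lam j)) → HasExponents (∑ j, A j) phi →
          CommonDen lam phi N → BadClasses ![0, 1] ![b, c] N ε 1 ∨
            (ConjGood α A lam phi N ∧ ∃ C ∈ 𝒟, InCoset C.1 C.2 (pt lam phi))) ∧
        (Few (BadPt ![0, 1] ![b, c]) ε → ∃ lam phi, (∀ j, DiagExps (A j) (lam j)) ∧
          DiagExps (∑ j, A j) phi ∧ (∀ N, CommonDen lam phi N → ConjGood α A lam phi N) ∧
          ∃ C ∈ 𝒟, InCoset C.1 C.2 (pt lam phi)) := by
  obtain ⟨ε, 𝒟, hε, h𝒟, h⟩ := density_corr.{u, v} n r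
  exact ⟨ε, 𝒟, hε, h𝒟, fun R _ _ _ _ _ s b c α A hα F _ _ δ x t hC =>
    h R s 2 ![0, 1] ![b, c] α A hα F δ x t hC⟩

end Pool.Agent.Results.MP_5e5ff1_ag.CorrespondencesSpectralDensity
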